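import Mathlib
import Pool.Agent.R932.H2.Fp

/-!
# The Mumford-Tate conjecture for `H^2` from finitely many Frobenius polynomials at one prime number

Let `X` be a smooth projective variety over a field `k` which is finitely generated over `ℚ`, and let
`H^2(X, ℚ)(1) = N ⊕ T_1 ⊕ ... ⊕ T_r`, where `N` is spanned by algebraic classes (`N = k^κ`) and the `T_i` are
polarised rational Hodge structures of level two with the Hodge numbers `(p_i, q_i, p_i)`, with
endomorphisms `ℚ` and pairwise not isomorphic; for example `X` is a product of varieties `X_i` with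
`b_1 = 0` and `T_i` is the transcendental part of `H^2(X_i)`, or `r = 1` and `T_1` is the whole transcendental
part of `H^2(X)`. Suppose that `p_i = 1` or `2 p_i^2 (p_i^2 + 1) < (q_i - 2 p_i) (q_i + p_i)`, and that the rank
`2 p_i + q_i` of `T_i` is at least `5` and different from `6`. `Γ` is the Galois group of `k` (or the fundamental
group of a model), `K` a number field and `s : G_K → Γ` the homomorphism given by a closed point of the generic
fibre of a model of `X` (if `k` is a number field, then `K = k` and `s` is the identity). `Γ` respects the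
decomposition, acts on `N ⊗ ℚ_ℓ` through a finite group and preserves the intersection form on `T_i`, and at
the places `v` of `K` of good reduction the characteristic polynomial `P_{i,v}` of the geometric Frobenius on
`T_i` has rational coefficients which do not depend on `ℓ` (Deligne).

**Theorem.** Let `ℓ₀` be ONE prime number, which does not divide `n_i - 1` if the rank `n_i` of `T_i` is odd, and
does not divide `(n_i - 2)(n_i - 4)`, with even valuation of the discriminant of `T_i`, if `n_i` is even. Suppose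
that for each `i` finitely many Frobenius polynomials `P_{i,v}` satisfy the conditions over `ℚ_{ℓ₀}` in
`EvenCriterion` or `OddCriterion`, and that for `i ≠ j` some `P_{i,v}` has a root which is multiplicatively
independent of the roots of `P_{j,v}`. Then the Mumford-Tate conjecture for `H^2(X)` is true
(0) for `ℓ₀`;
(1) for all prime numbers outside a set of natural density zero;
(2) for EVERY prime number `ℓ` such that the `T_i ⊗ ℚ_ℓ` have no endomorphisms besides the scalars over the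
finite extensions of `k`, if they are semisimple, or, without this condition, if `K = ℚ` (and the roots
of `P_{i,v}` are Weil numbers, as they are for varieties).

So for `X` over `ℚ` the Tate conjecture for the endomorphisms of the `T_i` implies the Mumford-Tate
conjecture for `H^2(X)` at EVERY prime number, no exceptions, as soon as finitely many Frobenius polynomials
satisfy the conditions at one prime number. In the hand-in `OnePrimeSuffices` of the same problem the
Mumford-Tate conjecture at `ℓ₀` was a hypothesis, and semisimplicity was assumed in (2); in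
`OddRankDensityOne` and `EvenRankDensityOne` there are conditions on (in effect infinitely many) Frobenius
polynomials, and `r = 1`.

Idea of the proof. (A) A polynomial `P_{i,v}` without factor of degree `d` over `ℚ_{ℓ₀}` excludes stable subspaces
of dimension `d`, also over open subgroups if the roots are neat; with the generic place this gives that
the Lie algebra of the image at `ℓ₀` is the full `so(T_i)`; independent roots and the lemma of Goursat, Kolchin
and Ribet give the product. (B) Project PO of this run: the places near suitable `ℓ₀`-adic tangent vectors give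
the same at 100 percent of the primes, and at the primes in (2) in the semisimple case. (C) Semisimplicity for
`K = ℚ` (project SQ of this run, `MP_b4801b_ag.EveryPrimeFromOnePrime`): `so(T_i ⊗ ℚ_{ℓ₀})` contains elements without
isotropic relation between the eigenvalues, so there are such Frobenius elements, but a stable isotropic
subspace at any `ℓ` gives such a relation for every Frobenius element (starting file
`MP_b4801b_ag.OneFrobenius`: Kronecker-Weber and `ℓ`-adic six exponentials). (D) Tangent vectors lie in the Lie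
algebra of the Zariski closure, so the Zariski closure contains the product of the `SO(T_i)`, which is the
Mumford-Tate group by the theorem on Hodge structures in the starting files.
-/

set_option autoImplicit false

namespace Pool.Agent.Results.MP_6369ef_ag.FrobeniusPolynomialsAtOnePrime

open MvPolynomial Matrix Filter Topology NumberField IsDedekindDomain
open Pool.Agent.W544.PG (HS)

noncomputable section

section groups

variable {ι : Type} [Fintype ι] [DecidableEq ι]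

/-- The value of a rational polynomial in the entries at a matrix. -/
def value {R : Type} [CommRing R] [Algebra ℚ R] (g : Matrix ι ι R)
    (f : MvPolynomial (ι × ι) ℚ) : R :=
  aeval (fun q : ι × ι => g q.1 q.2) f

/-- `G` is the set of complex points of an algebraic subgroup over `ℚ` of the general linear
group. -/
def IsQGroup (G : Set (Matrix ι ι ℂ)) : Prop :=
  (∃ P : Set (MvPolynomial (ι × ι) ℚ), ∀ g, g ∈ G ↔ g.det ≠ 0 ∧ ∀ f ∈ P, value g f = 0) ∧
  1 ∈ G ∧ (∀ a ∈ G, ∀ b ∈ G, a * b ∈ G) ∧ ∀ a ∈ G, a⁻¹ ∈ G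

/-- The complex points of the Mumford-Tate group: the smallest algebraic subgroup over `ℚ` which
contains `h z` for all `z`. -/
def mumfordTate (h : ℂ → Matrix ι ι ℂ) : Set (Matrix ι ι ℂ) :=
  {g | ∀ G, IsQGroup G → (∀ z, z ≠ 0 → h z ∈ G) → g ∈ G}

/-- The points of the Mumford-Tate group over a field `R`. -/
def InMumfordTate {R : Type} [Field R] [Algebra ℚ R] (h : ℂ → Matrix ι ι ℂ)
    (g : Matrix ι ι R) : Prop :=
  ∀ f : MvPolynomial (ι × ι) ℚ, (∀ m ∈ mumfordTate h, value m f = 0) → value g f = 0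

variable {ℓ : ℕ} [Fact ℓ.Prime] {Γ : Type} [Group Γ]

/-- The points of the identity component of the Zariski closure of `ρ(Γ)` over the algebraic
closure of `ℚ_ℓ`: a polynomial that vanishes on the image of a subgroup of finite index vanishes
at `g`. -/
def InMonodromy (ρ : Γ →* Matrix ι ι ℚ_[ℓ]) (g : Matrix ι ι (AlgebraicClosure ℚ_[ℓ])) : Prop :=
  ∀ f : MvPolynomial (ι × ι) (AlgebraicClosure ℚ_[ℓ]),
    (∃ Δ : Subgroup Γ, Δ.FiniteIndex ∧ ∀ s ∈ Δ,
      aeval (fun q : ι × ι => algebraMap ℚ_[ℓ] (AlgebraicClosure ℚ_[ℓ]) (ρ s q.1 q.2)) f = 0) →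
    aeval (fun q : ι × ι => g q.1 q.2) f = 0

/-- The Mumford-Tate conjecture: the two groups agree over `ℚ_ℓ`. -/
def MumfordTateConjecture (h : ℂ → Matrix ι ι ℂ) (ρ : Γ →* Matrix ι ι ℚ_[ℓ]) : Prop :=
  ∀ g : Matrix ι ι (AlgebraicClosure ℚ_[ℓ]), g.det ≠ 0 → (InMonodromy ρ g ↔ InMumfordTate h g)

end groups

variable {n r : ℕ}

/-- The action of `ℂ^×` on `N ⊕ T`: trivial on `N`, and on `T` it is multiplication by `conj z / z`,
`1`, `z / conj z` on the parts where `T.x` is `1`, `0`, `-1`. -/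
def hodge (κ : Type) [Fintype κ] [DecidableEq κ] (T : HS n) (z : ℂ) :
    Matrix (κ ⊕ Fin n) (κ ⊕ Fin n) ℂ :=
  fromBlocks 1 0 0 (1 + ((starRingEnd ℂ z / z - 1) / 2) • (T.x * T.x + T.x) +
    ((z / starRingEnd ℂ z - 1) / 2) • (T.x * T.x - T.x))

/-- The matrix `A` respects the decomposition `T = T_1 ⊕ ... ⊕ T_r`: the basis vectors of `T_i` are the basis
vectors `a` of `T` with `c a = i`. -/
def RespectsPieces {R : Type} [Zero R] (c : Fin n → Fin r) (A : Matrix (Fin n) (Fin n) R) : Prop :=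
  ∀ a b, c a ≠ c b → A a b = 0

/-- the part of the matrix `A` which belongs to `T_i` -/
def piece {R : Type} (c : Fin n → Fin r) (i : Fin r) (A : Matrix (Fin n) (Fin n) R) :
    Matrix {a : Fin n // c a = i} {a : Fin n // c a = i} R :=
  A.submatrix (fun a => a.1) (fun a => a.1)

/-- `T = T_1 ⊕ ... ⊕ T_r`, where the `T_i` have the Hodge numbers `(p_i, q_i, p_i)`, endomorphisms `ℚ` and
are pairwise not isomorphic (every rational matrix which commutes with the Hodge operator is a rational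
scalar on every `T_i`), and `p_i = 1` or `2 p_i^2 (p_i^2 + 1) < (q_i - 2 p_i) (q_i + p_i)` -/
def IsSumOfPieces (T : HS n) (c : Fin n → Fin r) (p q : Fin r → ℕ) : Prop :=
  RespectsPieces c T.Q ∧ RespectsPieces c T.x ∧
  (∀ A : Matrix (Fin n) (Fin n) ℚ,
    A.map (fun a : ℚ => (a : ℂ)) * T.x = T.x * A.map (fun a : ℚ => (a : ℂ)) →
    ∃ z : Fin r → ℚ, A = Matrix.diagonal fun a => z (c a)) ∧
  (∀ i, (piece c i (T.x * T.x)).trace = 2 * (p i : ℂ)) ∧
  (∀ i, Nat.card {a : Fin n // c a = i} = 2 * p i + q i) ∧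
  ∀ i, (p i = 1 ∧ 0 < q i) ∨
    (0 < p i ∧ 2 * p i ^ 2 * (p i ^ 2 + 1) < (q i - 2 * p i) * (q i + p i))

/-- The condition on the prime number `ℓ` for a piece of rank `N` and discriminant `d`: the rank is at least
`5` and not `6`; `ℓ` does not divide `N - 1` if `N` is odd; `ℓ` does not divide `(N - 2)(N - 4)` and the valuation
of `d` at `ℓ` is even if `N` is even. -/
def IsAllowed (ℓ N : ℕ) (d : ℚ) : Prop :=
  5 ≤ N ∧ N ≠ 6 ∧ (Odd N → ¬ ℓ ∣ N - 1) ∧
    (Even N → ¬ ℓ ∣ (N - 2) * (N - 4) ∧ Even (padicValRat ℓ d))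

/-- An `ℓ`-adic integral matrix as a matrix over `ℚ_ℓ`. -/
def rat {ℓ : ℕ} [Fact ℓ.Prime] (g : Matrix (Fin n) (Fin n) ℤ_[ℓ]) :
    Matrix (Fin n) (Fin n) ℚ_[ℓ] :=
  g.map (algebraMap ℤ_[ℓ] ℚ_[ℓ])

/-- The representation `α ⊕ β` of the Galois group on `N ⊕ T`. -/
def galois {κ : Type} [Fintype κ] [DecidableEq κ] {ℓ : ℕ} [Fact ℓ.Prime] {Γ : Type} [Group Γ]
    (α : Γ →* Matrix κ κ ℚ_[ℓ]) (β : Γ →* Matrix (Fin n) (Fin n) ℤ_[ℓ]) :
    Γ →* Matrix (κ ⊕ Fin n) (κ ⊕ Fin n) ℚ_[ℓ] where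
  toFun σ := fromBlocks (α σ) 0 0 (rat (β σ))
  map_one' := (Pool.Agent.Y95.MT.tot α β).map_one
  map_mul' := (Pool.Agent.Y95.MT.tot α β).map_mul

/-- the absolute Galois group of `K`, with its profinite (Krull) topology -/
abbrev AbsoluteGaloisGroup (K : Type) [Field K] : Type := Gal(AlgebraicClosure K/K)

/-- `σ` is an (arithmetic) Frobenius element at the prime `v` of the number field `K`: for some prime
`Q` of the algebraic closure above `v` it acts on the residue field as `x ↦ x ^ N(v)` -/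
def IsFrobenius {K : Type} [Field K] [NumberField K] (v : HeightOneSpectrum (𝓞 K))
    (σ : AbsoluteGaloisGroup K) : Prop :=
  ∃ Q : Ideal (𝓞 (AlgebraicClosure K)), Q.IsMaximal ∧
    Q.comap (algebraMap (𝓞 K) (𝓞 (AlgebraicClosure K))) = v.asIdeal ∧
    ∀ x : 𝓞 (AlgebraicClosure K), σ • x - x ^ Ideal.absNorm v.asIdeal ∈ Q

/-- `α` and `β` are the representations on the algebraic classes and on `T`: both are continuous, `α` has
finite image, `β` respects the decomposition and preserves the form of `T`, and for all `v ∉ S` which are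
prime to `ℓ` the characteristic polynomial of (the image under `s` of) the geometric Frobenius elements `σ⁻¹`
(`σ` arithmetic) at `v` on `T_i` is `P i v` -/
def IsSystem {K : Type} [Field K] [NumberField K] {Γ : Type} [Group Γ] [TopologicalSpace Γ]
    (s : AbsoluteGaloisGroup K →* Γ) {κ : Type} [Fintype κ] [DecidableEq κ] (T : HS n)
    (c : Fin n → Fin r) (S : Set (HeightOneSpectrum (𝓞 K)))
    (P : Fin r → HeightOneSpectrum (𝓞 K) → Polynomial ℚ) (ℓ : ℕ)
    [Fact ℓ.Prime] (α : Γ →* Matrix κ κ ℚ_[ℓ]) (β : Γ →* Matrix (Fin n) (Fin n) ℤ_[ℓ]) : Prop :=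
  Continuous α ∧ (Set.range α).Finite ∧ Continuous β ∧ (∀ σ, RespectsPieces c (β σ)) ∧
    (∀ σ, (rat (β σ))ᵀ * T.Q.map (algebraMap ℚ ℚ_[ℓ]) * rat (β σ) =
      T.Q.map (algebraMap ℚ ℚ_[ℓ])) ∧
    ∀ i, ∀ v ∉ S, (ℓ : 𝓞 K) ∉ v.asIdeal → ∀ σ : AbsoluteGaloisGroup K, IsFrobenius v σ →
      (piece c i (rat (β (s σ⁻¹)))).charpoly = (P i v).map (algebraMap ℚ ℚ_[ℓ])

/-- The polynomial `P` is separable, and no quotient of two different roots is a root of unity. -/
def IsNeat (P : Polynomial ℚ) : Prop :=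
  P.Separable ∧ ∀ n : ℕ, 0 < n → ∀ x y : ℂ, Polynomial.aeval x P = 0 → Polynomial.aeval y P = 0 →
    x ^ n = y ^ n → x = y

/-- the polynomial `P` is neat, no root is `1` or `-1`, and for roots `x ≠ y`, `z`, `w` an equality
`x / y = z / w` is only possible if `z = x`, `w = y`, or if `z = 1 / y` and `w = 1 / x` -/
def IsGeneric (P : Polynomial ℚ) : Prop :=
  IsNeat P ∧ (∀ x : ℂ, Polynomial.aeval x P = 0 → x * x ≠ ((1 : ℚ) : ℂ)) ∧
    ∀ x y z w : ℂ, Polynomial.aeval x P = 0 → Polynomial.aeval y P = 0 → Polynomial.aeval z P = 0 →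
      Polynomial.aeval w P = 0 → x ≠ y → x * w = z * y →
      (z = x ∧ w = y) ∨ (z * y = ((1 : ℚ) : ℂ) ∧ w * x = ((1 : ℚ) : ℂ))

/-- a root of `P` is multiplicatively independent of the roots of `R` -/
def HasIndependentRoot (P R : Polynomial ℚ) : Prop :=
  ∃ x : ℂˣ, Polynomial.aeval (x : ℂ) P = 0 ∧ ∀ m : ℕ, 0 < m →
    x ^ m ∉ Subgroup.closure {y : ℂˣ | Polynomial.aeval (y : ℂ) R = 0 ∨ (y : ℂ) = ((1 : ℚ) : ℂ)}

/-- The criterion for even rank `N`: for every `0 < d < N` some neat `P v` has no factor of degree `d` over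
`ℚ_ℓ`; some neat `P v` has a root in `ℚ_ℓ`; some `P v` is generic. -/
def EvenCriterion {K : Type} [Field K] [NumberField K] (S : Set (HeightOneSpectrum (𝓞 K)))
    (P : HeightOneSpectrum (𝓞 K) → Polynomial ℚ) (N ℓ : ℕ) [Fact ℓ.Prime] : Prop :=
  (∀ d, 0 < d → d < N → ∃ v ∉ S, (ℓ : 𝓞 K) ∉ v.asIdeal ∧ IsNeat (P v) ∧
    ∀ R : Polynomial ℚ_[ℓ], R.Monic → R.natDegree = d → ¬ R ∣ (P v).map (algebraMap ℚ ℚ_[ℓ])) ∧
  (∃ v ∉ S, (ℓ : 𝓞 K) ∉ v.asIdeal ∧ IsNeat (P v) ∧
    ∃ x : ℚ_[ℓ], ((P v).map (algebraMap ℚ ℚ_[ℓ])).eval x = 0) ∧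
  ∃ v ∉ S, (ℓ : 𝓞 K) ∉ v.asIdeal ∧ IsGeneric (P v)

/-- The criterion for odd rank: for some `v`, `w` the polynomials `P v = (X - ε) A` (`ε = ±1`, neat) and
`P w = (X - η) B` are such that `A` is irreducible over `ℚ_ℓ`, `B(1)` and `B(-1)` are not zero and
`A(1) A(-1) B(1) B(-1)` is not a square in `ℚ_ℓ`; and for some `v` the polynomial is `(X - 1) A` where no root of
`A` is a root of unity, and the product of two roots of `A` is never a root. -/
def OddCriterion {K : Type} [Field K] [NumberField K] (S : Set (HeightOneSpectrum (𝓞 K)))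
    (P : HeightOneSpectrum (𝓞 K) → Polynomial ℚ) (ℓ : ℕ) [Fact ℓ.Prime] : Prop :=
  (∃ v ∉ S, ∃ w ∉ S, (ℓ : 𝓞 K) ∉ v.asIdeal ∧ (ℓ : 𝓞 K) ∉ w.asIdeal ∧ IsNeat (P v) ∧
    ∃ (ε η : ℚ) (A B : Polynomial ℚ), ε * ε = 1 ∧ P v = (Polynomial.X - Polynomial.C ε) * A ∧
      P w = (Polynomial.X - Polynomial.C η) * B ∧
      Irreducible (A.map (algebraMap ℚ ℚ_[ℓ])) ∧ B.eval 1 ≠ 0 ∧ B.eval (-1) ≠ 0 ∧
      ¬ IsSquare (algebraMap ℚ ℚ_[ℓ] (A.eval 1 * A.eval (-1) * (B.eval 1 * B.eval (-1))))) ∧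
  ∃ v ∉ S, (ℓ : 𝓞 K) ∉ v.asIdeal ∧ ∃ A : Polynomial ℚ, P v = (Polynomial.X - 1) * A ∧
    (∀ x : ℂ, Polynomial.aeval x A = 0 → ∀ n : ℕ, 0 < n → x ^ n ≠ 1) ∧
    ∀ x y z : ℂ, Polynomial.aeval x A = 0 → Polynomial.aeval y A = 0 → Polynomial.aeval z A = 0 →
      x * y ≠ z

/-- the roots of the polynomials `P v` are, divided by `N(v)`, Weil numbers of weight two: they have absolute
value one, and `N(v)` times the roots are the roots of a polynomial with integral coefficients -/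
def HasWeilRoots {K : Type} [Field K] [NumberField K] (S : Set (HeightOneSpectrum (𝓞 K)))
    (P : HeightOneSpectrum (𝓞 K) → Polynomial ℚ) : Prop :=
  ∀ v ∉ S, (P v).Monic ∧ (∀ z : ℂ, Polynomial.aeval z (P v) = 0 → ‖z‖ = 1) ∧
    ∃ Q : Polynomial ℤ, (P v).scaleRoots (Ideal.absNorm v.asIdeal : ℚ) = Q.map (algebraMap ℤ ℚ)

/-- the representation `ρ` (on `T_i`) is semisimple: every stable subspace has a stable complement -/
def IsSemisimple {Γ I : Type} [Fintype I] {ℓ : ℕ} [Fact ℓ.Prime] (ρ : Γ → Matrix I I ℚ_[ℓ]) :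
    Prop :=
  ∀ W : Submodule ℚ_[ℓ] (I → ℚ_[ℓ]), (∀ σ, ∀ w ∈ W, ρ σ *ᵥ w ∈ W) →
    ∃ W' : Submodule ℚ_[ℓ] (I → ℚ_[ℓ]), IsCompl W W' ∧ ∀ σ, ∀ w ∈ W', ρ σ *ᵥ w ∈ W'

/-- over open subgroups the representation `ρ` has no endomorphisms besides the scalars -/
def HasScalarEndomorphisms {Γ I : Type} [Group Γ] [TopologicalSpace Γ] [Fintype I] [DecidableEq I]
    {ℓ : ℕ} [Fact ℓ.Prime] (ρ : Γ → Matrix I I ℚ_[ℓ]) : Prop :=
  ∀ (A : Matrix I I ℚ_[ℓ]) (U : Subgroup Γ), IsOpen (U : Set Γ) → (∀ σ ∈ U, A * ρ σ = ρ σ * A) →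
    ∃ z : ℚ_[ℓ], A = z • (1 : Matrix I I ℚ_[ℓ])

/-- the set `A` of prime numbers has natural density zero -/
def HasDensityZero (A : Set ℕ) : Prop :=
  Tendsto (fun n : ℕ => (Nat.card {ℓ : ℕ // ℓ ≤ n ∧ ℓ ∈ A} : ℝ) / (Nat.primeCounting n : ℝ))
    atTop (𝓝 0)

/-- **The Mumford-Tate conjecture for `H^2 = N ⊕ T_1 ⊕ ... ⊕ T_r` from finitely many Frobenius polynomials at one
prime number: at this prime, at 100 percent of the primes, and at every prime at which the `T_i` have scalar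
endomorphisms and are semisimple, or `K = ℚ`.** -/
theorem result (T : HS n) (c : Fin n → Fin r) (p q : Fin r → ℕ) (hT : IsSumOfPieces T c p q)
    -- the Galois group
    (K : Type) [Field K] [NumberField K] (Γ : Type) [Group Γ] [TopologicalSpace Γ]
    [IsTopologicalGroup Γ] [CompactSpace Γ] (s : AbsoluteGaloisGroup K →* Γ) (hs : Continuous s)
    (S : Set (HeightOneSpectrum (𝓞 K))) (hS : S.Finite)
    (P : Fin r → HeightOneSpectrum (𝓞 K) → Polynomial ℚ)
    (κ : Type) [Fintype κ] [DecidableEq κ]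
    (α : ∀ (ℓ : ℕ) [Fact ℓ.Prime], Γ →* Matrix κ κ ℚ_[ℓ])
    (β : ∀ (ℓ : ℕ) [Fact ℓ.Prime], Γ →* Matrix (Fin n) (Fin n) ℤ_[ℓ])
    (hsys : ∀ (ℓ : ℕ) [Fact ℓ.Prime], IsSystem s T c S P ℓ (α ℓ) (β ℓ))
    -- the prime number `ℓ₀`
    (ℓ₀ : ℕ) [Fact ℓ₀.Prime] (hℓ₀ : ∀ i, IsAllowed ℓ₀ (2 * p i + q i) (piece c i T.Q).det)
    (heven : ∀ i, Even (2 * p i + q i) → EvenCriterion S (P i) (2 * p i + q i) ℓ₀)
    (hodd : ∀ i, Odd (2 * p i + q i) → OddCriterion S (P i) ℓ₀)
    (htwo : ∀ i j, i ≠ j → ∃ v ∉ S, (ℓ₀ : 𝓞 K) ∉ v.asIdeal ∧ HasIndependentRoot (P i v) (P j v)) :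
    MumfordTateConjecture (hodge κ T) (galois (α ℓ₀) (β ℓ₀)) ∧
    HasDensityZero {ℓ | ∃ _ : Fact ℓ.Prime,
      ¬ MumfordTateConjecture (hodge κ T) (galois (α ℓ) (β ℓ))} ∧
    ∀ (ℓ : ℕ) [Fact ℓ.Prime], (∀ i, IsSemisimple fun σ => piece c i (rat (β ℓ σ))) ∨
        (Module.finrank ℚ K = 1 ∧ ∀ i, HasWeilRoots S (P i)) →
      (∀ i, HasScalarEndomorphisms fun σ => piece c i (rat (β ℓ σ))) →
      MumfordTateConjecture (hodge κ T) (galois (α ℓ) (β ℓ)) := by
  classical
  obtain ⟨hbQ, hbx, hEnd, htr, hrk, hnum⟩ := hT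
  have hnb : ∀ i, Pool.Agent.R932.H2.nb c i = 2 * p i + q i := by
    intro i
    rw [← hrk i, Nat.card_eq_fintype_card]
    rfl
  have hB : T.Big c p q := by
    refine ⟨hbQ, hbx, hEnd, fun i => ?_, fun i => ?_, fun i => ?_⟩
    · rw [← htr i, Matrix.trace]
      symm
      refine (Finset.sum_subtype (Finset.univ.filter fun a => c a = i) (fun a => by simp)
        (fun a => (T.x * T.x) a a)).symm.trans ?_
      rfl
    · rw [← hnb i]
      exact (Fintype.card_subtype fun a : Fin n => c a = i).symm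
    · rcases hnum i with ⟨h1, h2⟩ | h1
      · refine Or.inl ⟨h1, h2, ?_⟩
        rintro h3
        have := (hℓ₀ i).1
        omega
      · exact Or.inr h1
  -- the kinds
  have hdet : ∀ i, (Pool.Agent.R932.H2.Jb c T ℓ₀ i).det = (((piece c i T.Q).det : ℚ) : ℚ_[ℓ₀]) := by
    intro i
    have h1 : Pool.Agent.R932.H2.Jb c T ℓ₀ i = Pool.Agent.R932.H2.pk c i
        (T.Q.map (algebraMap ℚ ℚ_[ℓ₀])) := rfl
    rw [h1, Pool.Agent.R932.H2.pk_blk, Matrix.det_submatrix_equiv_self]
    have h2 : Pool.Agent.R932.H2.blk c i (T.Q.map (algebraMap ℚ ℚ_[ℓ₀])) =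
        (piece c i T.Q).map (algebraMap ℚ ℚ_[ℓ₀]) := rfl
    rw [h2, ← RingHom.mapMatrix_apply, ← RingHom.map_det]
    exact eq_ratCast (algebraMap ℚ ℚ_[ℓ₀]) _
  have hkd : ∀ i, ∃ kd : Pool.Agent.R932.PO.Kind,
      (∀ (ℓ : ℕ) [Fact ℓ.Prime], Pool.Agent.R932.PO.Fits kd (Pool.Agent.R932.H2.Jb c T ℓ i)) ∧
      Pool.Agent.R932.PO.Allows kd (Pool.Agent.R932.H2.nb c i) ℓ₀
        (Pool.Agent.R932.H2.Jb c T ℓ₀ i) ∧
      Pool.Agent.R932.FP.CondK kd S (P i) (fun _ => 1) (Pool.Agent.R932.H2.nb c i) ℓ₀ := by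
    intro i
    obtain ⟨h5, h6, hal1, hal2⟩ := hℓ₀ i
    have hev := heven i
    have hod := hodd i
    rw [← hnb i] at h5 h6 hal1 hal2 hev hod
    rcases Nat.even_or_odd (Pool.Agent.R932.H2.nb c i) with he | ho
    · refine ⟨.even, fun ℓ _ => ⟨Pool.Agent.R932.H2.Jb_symm ℓ i, he, ?_⟩,
        ⟨(hal2 he).1, ?_⟩, hev he⟩
      · obtain ⟨m, hm⟩ := he
        omega
      · show Even (Padic.valuation (Pool.Agent.R932.H2.Jb c T ℓ₀ i).det)
        rw [hdet, Padic.valuation_ratCast]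
        exact (hal2 he).2
    · exact ⟨.odd, fun ℓ _ => ⟨Pool.Agent.R932.H2.Jb_symm ℓ i, ho, h5⟩, hal1 ho, hod ho⟩
  choose kd hfit hal hcond using hkd
  have hmt := Pool.Agent.R932.H2.mt_fp (P := P) (kd := kd) hB hS hs hfit
    (fun i => by rw [hnb i]; exact (hℓ₀ i).1) α (fun ℓ _ => ⟨(hsys ℓ).1, (hsys ℓ).2.1⟩) β
    (fun ℓ _ => (hsys ℓ).2.2.1) (fun ℓ _ => (hsys ℓ).2.2.2.1) (fun ℓ _ => (hsys ℓ).2.2.2.2.1)
    (fun i ℓ _ v hv hvℓ σ hσ => by
      rw [Pool.Agent.R932.H2.charpoly_pk]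
      exact (hsys ℓ).2.2.2.2.2 i v hv hvℓ σ hσ) ℓ₀ hal hcond htwo
  refine ⟨hmt.1, hmt.2.1, fun ℓ _ hss hsc => hmt.2.2 ℓ ?_ fun i => ?_⟩
  · rcases hss with h | h
    · exact Or.inl fun i => Pool.Agent.R932.H2.ss_blk _ i (h i)
    · exact Or.inr h
  · exact Pool.Agent.R932.H2.sc_blk _ i (hsc i)

end

end Pool.Agent.Results.MP_6369ef_ag.FrobeniusPolynomialsAtOnePrime
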