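import Mathlib
import Pool.Agent.R855.MT.Sum
import Pool.Agent.R855.MT.H2

/-!
# The Mumford-Tate conjecture for the second cohomology of `A ^ n × Z`

Let `A` be an abelian variety and `Z` ANY smooth projective geometrically integral variety over a number
field `k` (or over a finitely generated field of characteristic zero), `ℓ` a prime number, `V = V_ℓ(A)`
the rational Tate module with the action `ρ` of the Galois group `Γ`, `χ` the cyclotomic character and
`ω` the Weil pairing of a polarization; `K` is the algebraic closure of `ℚ_ℓ` and `X = K ⊗ V`. By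
theorems of Faltings `V` is semisimple, also over finite extensions of `k`, and the endomorphisms of `V`
which commute with a subgroup of finite index of `Γ` come from endomorphisms of `A`. Let
`H₁ = H ^ 1 (Z)` and `H₂ = H ^ 2 (Z)(1)` be the `ℓ`-adic cohomology groups, with the actions `τ₁` and
`τ₂` of `Γ`.

By the Künneth formula `H ^ 2 (A ^ n × Z)(1)` is the sum of `H ^ 2 (A ^ n)(1)` (the alternating forms
on `V ^ n`, twisted by `χ`), of `(H ^ 1 (A ^ n) ⊗ H ^ 1 (Z))(1)` (the linear maps from `V ^ n` to `H₁`,
twisted by `χ`) and of `H₂`. This is the representation `h2Rep (powRep ρ n) χ τ₁ τ₂`.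

The *local operators* (`IsLocal`) are obtained from

* the operators `γ - 1`, for the elements `γ` of the group with `(γ - 1) ^ 2 = 0` (in the inertia
  groups of places of bad semistable reduction), and
* the slope operators of the Frobenius elements `F`, at places of good or bad reduction: multiplication
  by `w (a) - w (χ F) / 2` on the eigenspace of the eigenvalue `a`, where `w` is a `p`-adic valuation
  (or any other homomorphism from the multiplicative group to the additive group),

by linear combinations, commutators and components with respect to the gradings given by slope operators.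
Suppose that every strongly irreducible subspace `U` of `X` is symplectic (the geometric simple factors
of `A` are of type I or II in the classification of Albert) and that there is a local operator `N` with
`N ^ 2 = 0` such that the defects of `N` on `U` (the rank of `N` on `U`, and the multiplicities of the
nonzero eigenvalues of the operators `N N'`, for local operators `N'` with `N' ^ 2 = 0`) have greatest
common divisor one, or one of the defects is two, or odd, or prime to the dimension of `U`
(`HasLocalOperators`).

For example, let `F` be a Frobenius element at a place of good reduction which is not supersingular,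
with ARBITRARY Newton polygon, let `p` and `q` be the projections to the parts of `X` of the lowest and
of the highest slope, and let `y` be the operator `γ - 1` at a place of bad reduction of any toric rank,
or the slope operator of a second Frobenius element. Then `N = p y q` and `N' = q y p` are local
operators, and it is enough that some nonzero eigenvalue of `p y q y p` on `U` is simple, or has
multiplicity two; this is so in general position.

Suppose also that the Galois action on `H₁ ⊕ H₂` is potentially abelian (for instance if `Z` is of CM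
type), or, much more generally, that for every piece `U` every subgroup of finite index contains an
element which acts trivially on `H₁ ⊕ H₂`, with `χ = 1`, and which acts nontrivially on `U`
(`KernelActs`). This holds if for every `U` there is a place (of residue characteristic different from
`ℓ`) at which `Z` has potentially good reduction and at which an inertia group acts on `U` through an
infinite group, or if the Lie algebras of the images of `Γ` in `GL(V)` and `GL(H₁ ⊕ H₂)` have no common
nonabelian quotient (for instance if the monodromy of `H₂` has no symplectic factors and `H₁ = 0`).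

Let `G` be the group of the `ℚ_ℓ`-points of the Mumford-Tate group of `h ^ 1(A) ⊕ h ^ 1(Z) ⊕ h ^ 2(Z)(1)`,
with its actions `R`, `T₁` and `T₂` on `V`, `H₁` and `H₂` and the character `ν` through which it acts on
the Tate motive. The Mumford-Tate group of `H ^ 2 (A ^ n × Z)(1)` is the image of `G`. By the theorem
of Faltings the Tate classes of degree two on `A × A` are divisor classes, so that they are fixed by
`G` (`FixesDegreeTwo`).

The Mumford-Tate conjecture for a motive with realization `P` says that the Zariski closure of the
image of the Galois group (over the field `k^conn`, that is, the identity component for any field) is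
the Mumford-Tate group. As the Mumford-Tate group is reductive, the inclusion of the Mumford-Tate
group in the monodromy group says, for a semisimple `P`, that the Mumford-Tate group fixes all the
tensors which are fixed by a subgroup of finite index of `Γ`. As `H ^ 2` is self-dual up to a twist, the
tensors are multilinear forms: this is `FixesTateTensors` (all multilinear forms, in any number of
variables, with any Tate twist `j`). The other inclusion is known for the motives of abelian type
(Deligne, André).

The theorem: the Mumford-Tate conjecture for `H ^ 1 (Z) ⊕ H ^ 2 (Z)(1)` implies the Mumford-Tate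
conjecture for `H ^ 2` of all the varieties `A ^ n × Z`. For `Z` a point it is the Mumford-Tate
conjecture for `H ^ 2 (A ^ n)`, for all `n`. If `Z` is a surface with `p_g = 1`, a product of K3 surfaces,
an abelian variety with complex multiplication or an abelian variety of dimension at most three the
Mumford-Tate conjecture is known for `Z`.

The proof. The local operators normalize the Lie algebra of the kernel of the action of `Γ` on
`H₁ ⊕ H₂`; one constructs square-zero elements of rank one in it, and shows that it is the full Lie
algebra of the symplectic operators on each `U` (`Pool/Agent/R855/MT/Prod.lean`). This gives the result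
for the tensors of `V ⊕ H₁ ⊕ H₂`, and `H ^ 2 (A ^ n × Z)(1)` is spanned by the values of equivariant
(up to twists) multilinear maps from this space (`Pool/Agent/R855/MT/H2.lean`).
-/

set_option autoImplicit false

namespace Pool.Agent.Results.MP_6369ef_ag.MixedPlacesH2

open Module TensorProduct Pool.Agent.Y126.Notions Pool.Agent.R930
open Pool.Agent.R855.MT Pool.Agent.R855.MT.Constr
open Pool.Agent.Results.MP_021685_ag.ProductsOverNumberFields (KernelActs PotentiallyAbelian)

noncomputable section

section defs

variable {ℓ : ℕ} [Fact ℓ.Prime] {V W Γ G : Type} [AddCommGroup V] [Module ℚ_[ℓ] V]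
  [AddCommGroup W] [Module ℚ_[ℓ] W] [Group Γ] [Group G]

/-- The known properties of the rational Tate module: the Weil pairing, the theorem of Faltings
on semisimplicity, the lattice. -/
structure IsTateModule (ρ : Representation ℚ_[ℓ] Γ V) (χ : Γ →* ℚ_[ℓ])
    (ω : V →ₗ[ℚ_[ℓ]] V →ₗ[ℚ_[ℓ]] ℚ_[ℓ]) : Prop where
  alt : ∀ v, ω v v = 0
  nondeg : ∀ u, (∀ v, ω v u = 0) → u = 0
  form : ∀ s u v, ω (ρ s u) (ρ s v) = χ s * ω u v
  semisimple : PotentiallySemisimple ρ
  integral : ∃ (d : ℕ) (b : Basis (Fin d) ℚ_[ℓ] V), ∀ g i j,
    ‖LinearMap.toMatrix b b (ρ g) i j‖ ≤ 1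

/-- All strongly irreducible subspaces are symplectic, with local operators in general position. -/
def HasMixedPlaces (ρ : Representation ℚ_[ℓ] Γ V) (χ : Γ →* ℚ_[ℓ]) : Prop :=
  ∀ U, StronglyIrreducible (extend (AlgebraicClosure ℚ_[ℓ]) ρ) U →
    IsSymplectic (extend (AlgebraicClosure ℚ_[ℓ]) ρ)
      ((algebraMap ℚ_[ℓ] (AlgebraicClosure ℚ_[ℓ]) : ℚ_[ℓ] →* _).comp χ) U ∧
    HasLocalOperators (extend (AlgebraicClosure ℚ_[ℓ]) ρ)
      ((algebraMap ℚ_[ℓ] (AlgebraicClosure ℚ_[ℓ]) : ℚ_[ℓ] →* _).comp χ) U

/-- The action on `W` is potentially abelian, or the kernel of the action on `W` acts on every strongly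
irreducible subspace (also over finite extensions). -/
def IsIndependent (ρ : Representation ℚ_[ℓ] Γ V) (χ : Γ →* ℚ_[ℓ])
    (τ : Representation ℚ_[ℓ] Γ W) : Prop :=
  PotentiallyAbelian τ ∨ KernelActs (extend (AlgebraicClosure ℚ_[ℓ]) ρ)
    ((algebraMap ℚ_[ℓ] (AlgebraicClosure ℚ_[ℓ]) : ℚ_[ℓ] →* _).comp χ) τ

/-- The Mumford-Tate group fixes the Tate classes of degree two on `A × A` (Faltings). -/
def FixesDegreeTwo (ρ : Representation ℚ_[ℓ] Γ V) (χ : Γ →* ℚ_[ℓ])
    (R : Representation ℚ_[ℓ] G V) (ν : G →* ℚ_[ℓ]) : Prop :=
  ∀ B : V →ₗ[ℚ_[ℓ]] V →ₗ[ℚ_[ℓ]] ℚ_[ℓ],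
    (∃ Δ : Subgroup Γ, Δ.FiniteIndex ∧ ∀ s ∈ Δ, ∀ u v, B (ρ s u) (ρ s v) = χ s * B u v) →
    ∀ h u v, B (R h u) (R h v) = ν h * B u v

end defs

theorem result (ℓ : ℕ) [Fact ℓ.Prime] {V H₁ H₂ Γ G : Type} [AddCommGroup V] [Module ℚ_[ℓ] V]
    [FiniteDimensional ℚ_[ℓ] V] [AddCommGroup H₁] [Module ℚ_[ℓ] H₁] [FiniteDimensional ℚ_[ℓ] H₁]
    [AddCommGroup H₂] [Module ℚ_[ℓ] H₂] [FiniteDimensional ℚ_[ℓ] H₂] [Group Γ] [Group G]
    -- the Galois group, and the Tate module of `A`
    (ρ : Representation ℚ_[ℓ] Γ V) (χ : Γ →* ℚ_[ℓ])
    (ω : V →ₗ[ℚ_[ℓ]] V →ₗ[ℚ_[ℓ]] ℚ_[ℓ]) (hA : IsTateModule ρ χ ω)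
    -- the places
    (hplaces : HasMixedPlaces ρ χ)
    -- the cohomology of `Z`
    (τ₁ : Representation ℚ_[ℓ] Γ H₁) (τ₂ : Representation ℚ_[ℓ] Γ H₂)
    (hZ : IsIndependent ρ χ (τ₁.prod τ₂))
    -- the Mumford-Tate group
    (R : Representation ℚ_[ℓ] G V) (T₁ : Representation ℚ_[ℓ] G H₁)
    (T₂ : Representation ℚ_[ℓ] G H₂) (ν : G →* ℚ_[ℓ]) (hdegree : FixesDegreeTwo ρ χ R ν)
    -- the Mumford-Tate conjecture for `Z`
    (hMT : FixesTateTensors (τ₁.prod τ₂) χ (T₁.prod T₂) ν) (n : ℕ) :
    FixesTateTensors (h2Rep (powRep ρ n) χ τ₁ τ₂) χ (h2Rep (powRep R n) ν T₁ T₂) ν := by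
  obtain ⟨d, b, hb⟩ := hA.integral
  have h1 : FixesTateTensors (ρ.prod (τ₁.prod τ₂)) χ (R.prod (T₁.prod T₂)) ν :=
    (Pool.Agent.R855.MT.Sum.fixes_sum_iff ℓ ρ χ ω hA.alt hA.nondeg hA.form hA.semisimple b hb
      hplaces (τ₁.prod τ₂) hZ R (T₁.prod T₂) ν hdegree).2 hMT
  have hnd := Pool.Agent.W522.U.left_nondeg ω hA.alt hA.nondeg
  exact h2_fixes ρ χ τ₁ τ₂ R ν T₁ T₂ ω hnd hA.form
    (hdegree ω ⟨⊤, inferInstance, fun s _ u v => hA.form s u v⟩) h1 n

end

end Pool.Agent.Results.MP_6369ef_ag.MixedPlacesH2
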