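import Mathlib
import Pool.Agent.R932.H2.Cv

/-!
# The Mumford-Tate conjecture for `H^2`: one prime number suffices

Let `X` be a smooth projective variety over a field `k` which is finitely generated over `ℚ`, and let
`H^2(X, ℚ)(1) = N ⊕ T_1 ⊕ ... ⊕ T_r`, where `N` is spanned by algebraic classes (`N = k^κ`) and the `T_i` are
polarised rational Hodge structures of level two with the Hodge numbers `(p_i, q_i, p_i)`, with
endomorphisms `ℚ` and pairwise not isomorphic; for example `X` is a product of varieties `X_i` with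
`b_1 = 0` and `T_i` is the transcendental part of `H^2(X_i)`, or `r = 1` and `T_1` is the whole transcendental
part of `H^2(X)`. Suppose that `p_i = 1` or `2 p_i^2 (p_i^2 + 1) < (q_i - 2 p_i) (q_i + p_i)` (for example
`p_i = 2`, `q_i ≥ 9`, or `p_i = 3`, `q_i ≥ 17`), and that the rank `2 p_i + q_i` of `T_i` is at least `5` and
different from `6`. `Γ` is the Galois group of `k` (or the fundamental group of a model), `K` a number field and
`s : G_K → Γ` the homomorphism given by a closed point of the generic fibre of a model of `X` at which the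
Mumford-Tate group does not drop (if `k` is a number field, then `K = k` and `s` is the identity). `Γ` respects
the decomposition, acts on `N ⊗ ℚ_ℓ` through a finite group and preserves the intersection form on `T_i`, and
at the places `v` of `K` of good reduction the characteristic polynomial `P_{i,v}` of the geometric Frobenius
on `T_i` has rational coefficients which do not depend on `ℓ` (Deligne).

**Theorem.** Suppose that the Mumford-Tate conjecture for `H^2` is true for ONE prime number `ℓ₀` (for the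
closed point), where `ℓ₀` does not divide `n_i - 1` if the rank `n_i` of `T_i` is odd, and `ℓ₀` does not divide
`(n_i - 2)(n_i - 4)` and the valuation of the discriminant of `T_i` at `ℓ₀` is even if `n_i` is even. Then
(1) the Mumford-Tate conjecture for `H^2(X)` is true for all prime numbers outside a set of natural density
zero;
(2) it is true for EVERY prime number `ℓ` such that the representations `T_i ⊗ ℚ_ℓ` are semisimple and have no
endomorphisms besides the scalars over the finite extensions of `k` (these are the Grothendieck-Serre and the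
Tate conjecture for the endomorphisms of the `T_i`; nothing is assumed on homomorphisms between different `T_i`,
or on other tensors).

So, up to a set of density zero, the Mumford-Tate conjecture for such an `H^2` does not depend on `ℓ`. In the
hand-ins `OddRankDensityOne` and `EvenRankDensityOne` of the same problem there is no hypothesis at a single
prime, but there are conditions on (in effect infinitely many) Frobenius polynomials, and `r = 1`.
`MP_2b5912_ag.OnePrimeSuffices` concerns the integral form, `r = 1` and odd rank. For abelian varieties the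
independence of `ℓ` is a theorem of Larsen and Pink (with Faltings' theorem); K3 surfaces are known (Tankeev,
André).

Idea of the proof. (A) By the theorem on Hodge structures in the starting files the Mumford-Tate group is the
product of the `SO(T_i)`, so at `ℓ₀` every polynomial which vanishes on the image of an open subgroup vanishes
on the product of the `SO(T_i)(ℚ_{ℓ₀})`; so the joint Lie algebra of the image (the space of the tangent
vectors) is stable under conjugation by this product, hence (Cayley transforms) an ideal of the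
product of the `so(T_i)` with nonzero projections: it is everything. (B) Project PO of this run (`FourthPowerSuffices`
for MP_6c781a): by Chebotarev and `ℓ₀`-adic approximation there are places `v` at which some root of `P_{i,v}`
is multiplicatively independent of the roots of the `P_{j,v}`, `j ≠ i`, and places with the local types
needed to exclude stable subspaces at 100 percent of the primes; the lemma of Goursat, Kolchin and Ribet gives
the full joint Lie algebra at 100 percent of the primes, and at the primes in (2). (C) Tangent vectors lie in the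
Lie algebra of the Zariski closure, so the Zariski closure contains the product of the `SO(T_i)`.
-/

set_option autoImplicit false

namespace Pool.Agent.Results.MP_6369ef_ag.OnePrimeSuffices

open MvPolynomial Matrix Filter Topology NumberField IsDedekindDomain
open Pool.Agent.W544.PG (HS)

noncomputable section

section groups

variable {ι : Type} [Fintype ι] [DecidableEq ι]

/-- The value of a rational polynomial in the entries at a matrix. -/
def value {R : Type} [CommRing R] [Algebra ℚ R] (g : Matrix ι ι R)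
    (f : MvPolynomial (ι × ι) ℚ) : R :=
  aeval (fun q : ι × ι => g q.1 q.2) f

/-- `G` is the set of complex points of an algebraic subgroup over `ℚ` of the general linear
group. -/
def IsQGroup (G : Set (Matrix ι ι ℂ)) : Prop :=
  (∃ P : Set (MvPolynomial (ι × ι) ℚ), ∀ g, g ∈ G ↔ g.det ≠ 0 ∧ ∀ f ∈ P, value g f = 0) ∧
  1 ∈ G ∧ (∀ a ∈ G, ∀ b ∈ G, a * b ∈ G) ∧ ∀ a ∈ G, a⁻¹ ∈ G

/-- The complex points of the Mumford-Tate group: the smallest algebraic subgroup over `ℚ` which
contains `h z` for all `z`. -/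
def mumfordTate (h : ℂ → Matrix ι ι ℂ) : Set (Matrix ι ι ℂ) :=
  {g | ∀ G, IsQGroup G → (∀ z, z ≠ 0 → h z ∈ G) → g ∈ G}

/-- The points of the Mumford-Tate group over a field `R`. -/
def InMumfordTate {R : Type} [Field R] [Algebra ℚ R] (h : ℂ → Matrix ι ι ℂ)
    (g : Matrix ι ι R) : Prop :=
  ∀ f : MvPolynomial (ι × ι) ℚ, (∀ m ∈ mumfordTate h, value m f = 0) → value g f = 0

variable {ℓ : ℕ} [Fact ℓ.Prime] {Γ : Type} [Group Γ]

/-- The points of the identity component of the Zariski closure of `ρ(Γ)` over the algebraic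
closure of `ℚ_ℓ`: a polynomial that vanishes on the image of a subgroup of finite index vanishes
at `g`. -/
def InMonodromy (ρ : Γ →* Matrix ι ι ℚ_[ℓ]) (g : Matrix ι ι (AlgebraicClosure ℚ_[ℓ])) : Prop :=
  ∀ f : MvPolynomial (ι × ι) (AlgebraicClosure ℚ_[ℓ]),
    (∃ Δ : Subgroup Γ, Δ.FiniteIndex ∧ ∀ s ∈ Δ,
      aeval (fun q : ι × ι => algebraMap ℚ_[ℓ] (AlgebraicClosure ℚ_[ℓ]) (ρ s q.1 q.2)) f = 0) →
    aeval (fun q : ι × ι => g q.1 q.2) f = 0

/-- The Mumford-Tate conjecture: the two groups agree over `ℚ_ℓ`. -/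
def MumfordTateConjecture (h : ℂ → Matrix ι ι ℂ) (ρ : Γ →* Matrix ι ι ℚ_[ℓ]) : Prop :=
  ∀ g : Matrix ι ι (AlgebraicClosure ℚ_[ℓ]), g.det ≠ 0 → (InMonodromy ρ g ↔ InMumfordTate h g)

end groups

variable {n r : ℕ}

/-- The action of `ℂ^×` on `N ⊕ T`: trivial on `N`, and on `T` it is multiplication by `conj z / z`,
`1`, `z / conj z` on the parts where `T.x` is `1`, `0`, `-1`. -/
def hodge (κ : Type) [Fintype κ] [DecidableEq κ] (T : HS n) (z : ℂ) :
    Matrix (κ ⊕ Fin n) (κ ⊕ Fin n) ℂ :=
  fromBlocks 1 0 0 (1 + ((starRingEnd ℂ z / z - 1) / 2) • (T.x * T.x + T.x) +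
    ((z / starRingEnd ℂ z - 1) / 2) • (T.x * T.x - T.x))

/-- The matrix `A` respects the decomposition `T = T_1 ⊕ ... ⊕ T_r`: the basis vectors of `T_i` are the basis
vectors `a` of `T` with `c a = i`. -/
def RespectsPieces {R : Type} [Zero R] (c : Fin n → Fin r) (A : Matrix (Fin n) (Fin n) R) : Prop :=
  ∀ a b, c a ≠ c b → A a b = 0

/-- the part of the matrix `A` which belongs to `T_i` -/
def piece {R : Type} (c : Fin n → Fin r) (i : Fin r) (A : Matrix (Fin n) (Fin n) R) :
    Matrix {a : Fin n // c a = i} {a : Fin n // c a = i} R :=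
  A.submatrix (fun a => a.1) (fun a => a.1)

/-- `T = T_1 ⊕ ... ⊕ T_r`, where the `T_i` have the Hodge numbers `(p_i, q_i, p_i)`, endomorphisms `ℚ` and
are pairwise not isomorphic (every rational matrix which commutes with the Hodge operator is a rational
scalar on every `T_i`), and `p_i = 1` or `2 p_i^2 (p_i^2 + 1) < (q_i - 2 p_i) (q_i + p_i)` -/
def IsSumOfPieces (T : HS n) (c : Fin n → Fin r) (p q : Fin r → ℕ) : Prop :=
  RespectsPieces c T.Q ∧ RespectsPieces c T.x ∧
  (∀ A : Matrix (Fin n) (Fin n) ℚ,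
    A.map (fun a : ℚ => (a : ℂ)) * T.x = T.x * A.map (fun a : ℚ => (a : ℂ)) →
    ∃ z : Fin r → ℚ, A = Matrix.diagonal fun a => z (c a)) ∧
  (∀ i, (piece c i (T.x * T.x)).trace = 2 * (p i : ℂ)) ∧
  (∀ i, Nat.card {a : Fin n // c a = i} = 2 * p i + q i) ∧
  ∀ i, (p i = 1 ∧ 0 < q i) ∨
    (0 < p i ∧ 2 * p i ^ 2 * (p i ^ 2 + 1) < (q i - 2 * p i) * (q i + p i))

/-- The condition on the prime number `ℓ` for a piece of rank `N` and discriminant `d`: the rank is at least
`5` and not `6`; `ℓ` does not divide `N - 1` if `N` is odd; `ℓ` does not divide `(N - 2)(N - 4)` and the valuation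
of `d` at `ℓ` is even if `N` is even. -/
def IsAllowed (ℓ N : ℕ) (d : ℚ) : Prop :=
  5 ≤ N ∧ N ≠ 6 ∧ (Odd N → ¬ ℓ ∣ N - 1) ∧
    (Even N → ¬ ℓ ∣ (N - 2) * (N - 4) ∧ Even (padicValRat ℓ d))

/-- An `ℓ`-adic integral matrix as a matrix over `ℚ_ℓ`. -/
def rat {ℓ : ℕ} [Fact ℓ.Prime] (g : Matrix (Fin n) (Fin n) ℤ_[ℓ]) :
    Matrix (Fin n) (Fin n) ℚ_[ℓ] :=
  g.map (algebraMap ℤ_[ℓ] ℚ_[ℓ])

/-- The representation `α ⊕ β` of the Galois group on `N ⊕ T`. -/
def galois {κ : Type} [Fintype κ] [DecidableEq κ] {ℓ : ℕ} [Fact ℓ.Prime] {Γ : Type} [Group Γ]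
    (α : Γ →* Matrix κ κ ℚ_[ℓ]) (β : Γ →* Matrix (Fin n) (Fin n) ℤ_[ℓ]) :
    Γ →* Matrix (κ ⊕ Fin n) (κ ⊕ Fin n) ℚ_[ℓ] where
  toFun σ := fromBlocks (α σ) 0 0 (rat (β σ))
  map_one' := (Pool.Agent.Y95.MT.tot α β).map_one
  map_mul' := (Pool.Agent.Y95.MT.tot α β).map_mul

/-- the absolute Galois group of `K`, with its profinite (Krull) topology -/
abbrev AbsoluteGaloisGroup (K : Type) [Field K] : Type := Gal(AlgebraicClosure K/K)

/-- `σ` is an (arithmetic) Frobenius element at the prime `v` of the number field `K`: for some prime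
`Q` of the algebraic closure above `v` it acts on the residue field as `x ↦ x ^ N(v)` -/
def IsFrobenius {K : Type} [Field K] [NumberField K] (v : HeightOneSpectrum (𝓞 K))
    (σ : AbsoluteGaloisGroup K) : Prop :=
  ∃ Q : Ideal (𝓞 (AlgebraicClosure K)), Q.IsMaximal ∧
    Q.comap (algebraMap (𝓞 K) (𝓞 (AlgebraicClosure K))) = v.asIdeal ∧
    ∀ x : 𝓞 (AlgebraicClosure K), σ • x - x ^ Ideal.absNorm v.asIdeal ∈ Q

/-- `α` and `β` are the representations on the algebraic classes and on `T`: both are continuous, `α` has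
finite image, `β` respects the decomposition and preserves the form of `T`, and for all `v ∉ S` which are
prime to `ℓ` the characteristic polynomial of (the image under `s` of) the geometric Frobenius elements `σ⁻¹`
(`σ` arithmetic) at `v` on `T_i` is `P i v` -/
def IsSystem {K : Type} [Field K] [NumberField K] {Γ : Type} [Group Γ] [TopologicalSpace Γ]
    (s : AbsoluteGaloisGroup K →* Γ) {κ : Type} [Fintype κ] [DecidableEq κ] (T : HS n)
    (c : Fin n → Fin r) (S : Set (HeightOneSpectrum (𝓞 K)))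
    (P : Fin r → HeightOneSpectrum (𝓞 K) → Polynomial ℚ) (ℓ : ℕ)
    [Fact ℓ.Prime] (α : Γ →* Matrix κ κ ℚ_[ℓ]) (β : Γ →* Matrix (Fin n) (Fin n) ℤ_[ℓ]) : Prop :=
  Continuous α ∧ (Set.range α).Finite ∧ Continuous β ∧ (∀ σ, RespectsPieces c (β σ)) ∧
    (∀ σ, (rat (β σ))ᵀ * T.Q.map (algebraMap ℚ ℚ_[ℓ]) * rat (β σ) =
      T.Q.map (algebraMap ℚ ℚ_[ℓ])) ∧
    ∀ i, ∀ v ∉ S, (ℓ : 𝓞 K) ∉ v.asIdeal → ∀ σ : AbsoluteGaloisGroup K, IsFrobenius v σ →
      (piece c i (rat (β (s σ⁻¹)))).charpoly = (P i v).map (algebraMap ℚ ℚ_[ℓ])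

/-- the representation `ρ` (on `T_i`) is semisimple: every stable subspace has a stable complement -/
def IsSemisimple {Γ I : Type} [Fintype I] {ℓ : ℕ} [Fact ℓ.Prime] (ρ : Γ → Matrix I I ℚ_[ℓ]) :
    Prop :=
  ∀ W : Submodule ℚ_[ℓ] (I → ℚ_[ℓ]), (∀ σ, ∀ w ∈ W, ρ σ *ᵥ w ∈ W) →
    ∃ W' : Submodule ℚ_[ℓ] (I → ℚ_[ℓ]), IsCompl W W' ∧ ∀ σ, ∀ w ∈ W', ρ σ *ᵥ w ∈ W'

/-- over open subgroups the representation `ρ` has no endomorphisms besides the scalars -/
def HasScalarEndomorphisms {Γ I : Type} [Group Γ] [TopologicalSpace Γ] [Fintype I] [DecidableEq I]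
    {ℓ : ℕ} [Fact ℓ.Prime] (ρ : Γ → Matrix I I ℚ_[ℓ]) : Prop :=
  ∀ (A : Matrix I I ℚ_[ℓ]) (U : Subgroup Γ), IsOpen (U : Set Γ) → (∀ σ ∈ U, A * ρ σ = ρ σ * A) →
    ∃ z : ℚ_[ℓ], A = z • (1 : Matrix I I ℚ_[ℓ])

/-- the set `A` of prime numbers has natural density zero -/
def HasDensityZero (A : Set ℕ) : Prop :=
  Tendsto (fun n : ℕ => (Nat.card {ℓ : ℕ // ℓ ≤ n ∧ ℓ ∈ A} : ℝ) / (Nat.primeCounting n : ℝ))
    atTop (𝓝 0)

/-- **The Mumford-Tate conjecture for `H^2 = N ⊕ T_1 ⊕ ... ⊕ T_r` at one prime number implies it at 100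
percent of the prime numbers, and at every prime number at which the `T_i` are semisimple and have scalar
endomorphisms.** -/
theorem result (T : HS n) (c : Fin n → Fin r) (p q : Fin r → ℕ) (hT : IsSumOfPieces T c p q)
    -- the Galois group
    (K : Type) [Field K] [NumberField K] (Γ : Type) [Group Γ] [TopologicalSpace Γ]
    [IsTopologicalGroup Γ] [CompactSpace Γ] (s : AbsoluteGaloisGroup K →* Γ) (hs : Continuous s)
    (S : Set (HeightOneSpectrum (𝓞 K))) (hS : S.Finite)
    (P : Fin r → HeightOneSpectrum (𝓞 K) → Polynomial ℚ)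
    (κ : Type) [Fintype κ] [DecidableEq κ]
    (α : ∀ (ℓ : ℕ) [Fact ℓ.Prime], Γ →* Matrix κ κ ℚ_[ℓ])
    (β : ∀ (ℓ : ℕ) [Fact ℓ.Prime], Γ →* Matrix (Fin n) (Fin n) ℤ_[ℓ])
    (hsys : ∀ (ℓ : ℕ) [Fact ℓ.Prime], IsSystem s T c S P ℓ (α ℓ) (β ℓ))
    -- the prime number `ℓ₀`
    (ℓ₀ : ℕ) [Fact ℓ₀.Prime] (hℓ₀ : ∀ i, IsAllowed ℓ₀ (2 * p i + q i) (piece c i T.Q).det)
    (hone : MumfordTateConjecture (hodge κ T) ((galois (α ℓ₀) (β ℓ₀)).comp s)) :
    HasDensityZero {ℓ | ∃ _ : Fact ℓ.Prime,
      ¬ MumfordTateConjecture (hodge κ T) (galois (α ℓ) (β ℓ))} ∧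
    ∀ (ℓ : ℕ) [Fact ℓ.Prime], (∀ i, IsSemisimple fun σ => piece c i (rat (β ℓ σ))) →
      (∀ i, HasScalarEndomorphisms fun σ => piece c i (rat (β ℓ σ))) →
      MumfordTateConjecture (hodge κ T) (galois (α ℓ) (β ℓ)) := by
  classical
  obtain ⟨hbQ, hbx, hEnd, htr, hrk, hnum⟩ := hT
  have hnb : ∀ i, Pool.Agent.R932.H2.nb c i = 2 * p i + q i := by
    intro i
    rw [← hrk i, Nat.card_eq_fintype_card]
    rfl
  have hB : T.Big c p q := by
    refine ⟨hbQ, hbx, hEnd, fun i => ?_, fun i => ?_, fun i => ?_⟩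
    · rw [← htr i, Matrix.trace]
      symm
      refine (Finset.sum_subtype (Finset.univ.filter fun a => c a = i) (fun a => by simp)
        (fun a => (T.x * T.x) a a)).symm.trans ?_
      rfl
    · rw [← hnb i]
      exact (Fintype.card_subtype fun a : Fin n => c a = i).symm
    · rcases hnum i with ⟨h1, h2⟩ | h1
      · refine Or.inl ⟨h1, h2, ?_⟩
        rintro h3
        have := (hℓ₀ i).1
        omega
      · exact Or.inr h1
  -- the kinds
  have hdet : ∀ i, (Pool.Agent.R932.H2.Jb c T ℓ₀ i).det = (((piece c i T.Q).det : ℚ) : ℚ_[ℓ₀]) := by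
    intro i
    have h1 : Pool.Agent.R932.H2.Jb c T ℓ₀ i = Pool.Agent.R932.H2.pk c i
        (T.Q.map (algebraMap ℚ ℚ_[ℓ₀])) := rfl
    rw [h1, Pool.Agent.R932.H2.pk_blk, Matrix.det_submatrix_equiv_self]
    have h2 : Pool.Agent.R932.H2.blk c i (T.Q.map (algebraMap ℚ ℚ_[ℓ₀])) =
        (piece c i T.Q).map (algebraMap ℚ ℚ_[ℓ₀]) := rfl
    rw [h2, ← RingHom.mapMatrix_apply, ← RingHom.map_det]
    exact eq_ratCast (algebraMap ℚ ℚ_[ℓ₀]) _
  have hkd : ∀ i, ∃ kd : Pool.Agent.R932.PO.Kind,
      (∀ (ℓ : ℕ) [Fact ℓ.Prime], Pool.Agent.R932.PO.Fits kd (Pool.Agent.R932.H2.Jb c T ℓ i)) ∧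
      Pool.Agent.R932.PO.Allows kd (Pool.Agent.R932.H2.nb c i) ℓ₀
        (Pool.Agent.R932.H2.Jb c T ℓ₀ i) := by
    intro i
    obtain ⟨h5, h6, hodd, heven⟩ := hℓ₀ i
    rw [← hnb i] at h5 h6 hodd heven
    rcases Nat.even_or_odd (Pool.Agent.R932.H2.nb c i) with he | ho
    · refine ⟨.even, fun ℓ _ => ⟨Pool.Agent.R932.H2.Jb_symm ℓ i, he, ?_⟩, (heven he).1, ?_⟩
      · obtain ⟨m, hm⟩ := he
        omega
      · rw [hdet, Padic.valuation_ratCast]
        exact (heven he).2
    · exact ⟨.odd, fun ℓ _ => ⟨Pool.Agent.R932.H2.Jb_symm ℓ i, ho, h5⟩, hodd ho⟩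
  choose kd hfit hal using hkd
  have hmt := Pool.Agent.R932.H2.mt_several (P := P) (kd := kd) hB hS hs hfit
    (fun i => by rw [hnb i]; exact (hℓ₀ i).1) α (fun ℓ _ => ⟨(hsys ℓ).1, (hsys ℓ).2.1⟩) β
    (fun ℓ _ => (hsys ℓ).2.2.1) (fun ℓ _ => (hsys ℓ).2.2.2.1) (fun ℓ _ => (hsys ℓ).2.2.2.2.1)
    (fun i ℓ _ v hv hvℓ σ hσ => by
      rw [Pool.Agent.R932.H2.charpoly_pk]
      exact (hsys ℓ).2.2.2.2.2 i v hv hvℓ σ hσ) ℓ₀ hal hone
  refine ⟨hmt.1, fun ℓ _ hss hsc => hmt.2 ℓ (fun i => ?_) fun i => ?_⟩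
  · exact Pool.Agent.R932.H2.ss_blk _ i (hss i)
  · exact Pool.Agent.R932.H2.sc_blk _ i (hsc i)

end

end Pool.Agent.Results.MP_6369ef_ag.OnePrimeSuffices
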